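import Pool.Agent.N783.CF.Stm

set_option autoImplicit false
set_option linter.all false

/-! # Project CF (helper783), leaf FULL (helper169) -/

open Polynomial NumberField Matrix
open scoped Classical

namespace Pool.Agent.N169.CF

open Pool.Agent.N783.CF
open Pool.Agent.N783.PF (Bd Ht dsc fF SqF IsGen Fam GoodS GoodF LBad Cg sp rd)

/-- the action of the automorphisms on the embeddings -/
noncomputable def rho (F : Type) [Field F] (L : IntermediateField F (AlgebraicClosure F)) :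
    (AlgebraicClosure F ≃ₐ[F] AlgebraicClosure F) →* Equiv.Perm (L →ₐ[F] AlgebraicClosure F) where
  toFun σ :=
    { toFun := fun φ => σ.toAlgHom.comp φ
      invFun := fun φ => σ.symm.toAlgHom.comp φ
      left_inv := fun φ => by
        ext x
        exact σ.symm_apply_apply (φ x)
      right_inv := fun φ => by
        ext x
        exact σ.apply_symm_apply (φ x) }
  map_one' := by
    ext φ x
    rfl
  map_mul' σ τ := by
    ext φ x
    rfl

theorem rho_apply (F : Type) [Field F] (L : IntermediateField F (AlgebraicClosure F))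
    (σ : AlgebraicClosure F ≃ₐ[F] AlgebraicClosure F) (φ : L →ₐ[F] AlgebraicClosure F) :
    rho F L σ φ = σ.toAlgHom.comp φ := rfl

theorem sym_of (F : Type) [Field F] (L : IntermediateField F (AlgebraicClosure F))
    [FiniteDimensional F L]
    (h2 : ∀ φ ψ φ' ψ' : L →ₐ[F] AlgebraicClosure F, φ ≠ ψ → φ' ≠ ψ' →
      ∃ σ : AlgebraicClosure F ≃ₐ[F] AlgebraicClosure F, σ.toAlgHom.comp φ = φ' ∧
        σ.toAlgHom.comp ψ = ψ')
    (hs : ∃ (σ : AlgebraicClosure F ≃ₐ[F] AlgebraicClosure F) (φ ψ : L →ₐ[F] AlgebraicClosure F),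
      φ ≠ ψ ∧ σ.toAlgHom.comp φ = ψ ∧ σ.toAlgHom.comp ψ = φ ∧
      ∀ χ : L →ₐ[F] AlgebraicClosure F, χ ≠ φ → χ ≠ ψ → σ.toAlgHom.comp χ = χ) :
    Sym F L := by
  obtain ⟨σ, φ, ψ, hne, e1, e2, e3⟩ := hs
  have hsw : rho F L σ = Equiv.swap φ ψ := by
    apply Equiv.ext
    intro χ
    rw [rho_apply]
    by_cases hφ : χ = φ
    · rw [hφ, e1, Equiv.swap_apply_left]
    · by_cases hψ : χ = ψ
      · rw [hψ, e2, Equiv.swap_apply_right]
      · rw [e3 χ hφ hψ, Equiv.swap_apply_of_ne_of_ne hφ hψ]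
  have hall : ∀ τ : Equiv.Perm (L →ₐ[F] AlgebraicClosure F), τ.IsSwap → τ ∈ (rho F L).range := by
    rintro τ ⟨φ', ψ', hne', rfl⟩
    obtain ⟨u, hu1, hu2⟩ := h2 φ ψ φ' ψ' hne hne'
    refine ⟨u * σ * u⁻¹, ?_⟩
    rw [map_mul, map_mul, map_inv, hsw]
    have k1 : rho F L u φ = φ' := hu1
    have k2 : rho F L u ψ = ψ' := hu2
    rw [← k1, ← k2]
    exact (Equiv.swap_apply_apply (rho F L u) φ ψ).symm
  have htop : (rho F L).range = ⊤ := by
    rw [eq_top_iff, ← Equiv.Perm.closure_isSwap, Subgroup.closure_le]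
    exact fun τ hτ => hall τ hτ
  intro τ
  have hτ : τ ∈ (rho F L).range := by rw [htop]; trivial
  obtain ⟨u, hu⟩ := hτ
  exact ⟨u, fun χ => by rw [← hu]; rfl⟩

theorem t_FULL : S_IR2 → S_TR2 → S_SWP → S_FULL := by
  intro hIR hTR hSW g F _ _ L _ f θ hg hgen hirr hsqf htwo hnu
  obtain ⟨k, hk1, hk2⟩ := hIR g F L f θ hg hgen hsqf htwo
  haveI : FiniteDimensional F L := FiniteDimensional.right ℚ F L
  exact sym_of F L (hTR g F L f θ k hgen hirr hk1 hk2) (hSW g F L f θ hg hgen hirr hsqf hnu)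

end Pool.Agent.N169.CF
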